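import Pool.Agent.TH965.Mu.Group

/-!
The vanishing of the `μ`-invariant of a totally real field and the reduction to the fixed fields of
Sylow subgroups.
-/

set_option autoImplicit false

open NumberField IntermediateField

namespace Pool.Agent.TH965.Mu

/-- An algebraic closure of `ℚ`. -/
abbrev Ω : Type := AlgebraicClosure ℚ

instance : Algebra.IsAlgebraic ℚ Ω := AlgebraicClosure.isAlgebraic ℚ

instance : IsAlgClosure ℚ Ω := ⟨inferInstance, inferInstance⟩

instance : Normal ℚ Ω := IsAlgClosure.normal ℚ Ω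

instance : IsGalois ℚ Ω := ⟨⟩

/-- The cyclotomic `ℤ_p`-extension of `ℚ` (for odd `p`): the compositum of the subfields of
`ℚ(μ_{p^∞})` whose degree over `ℚ` is a power of `p`. -/
noncomputable def cyc (p : ℕ) : IntermediateField ℚ Ω :=
  sSup {F | F ≤ IntermediateField.adjoin ℚ {ζ : Ω | ∃ n : ℕ, ζ ^ (p ^ n) = 1} ∧
    ∃ k : ℕ, Module.finrank ℚ F = p ^ k}

/-- The finite Galois extensions of `ℚ` that are unramified at all primes outside `S`. -/
def GalUnram (S : Set ℕ) : Set (IntermediateField ℚ Ω) :=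
  {F | IsGalois ℚ F ∧ ∃ _ : NumberField F, ∀ q : ℕ, q.Prime → (q : ℤ) ∣ discr F → q ∈ S}

/-- The maximal extension of `ℚ` that is unramified at all primes outside `S`. -/
noncomputable def unram (S : Set ℕ) : IntermediateField ℚ Ω :=
  sSup (GalUnram S)

/-- `μ_p(E) = 0`: for every finite set `S` of primes that contains `p` and the primes that ramify in
`E`, the Galois group of the maximal extension of `ℚ` unramified outside `S` over `E^cyc` has only
finitely many continuous homomorphisms to `ℤ/p`. -/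
def MuZero (p : ℕ) (E : IntermediateField ℚ Ω) : Prop :=
  ∀ S : Set ℕ, S.Finite → p ∈ S → E ≤ unram S →
    (HomSet p (unram S).fixingSubgroup (E ⊔ cyc p).fixingSubgroup).Finite

lemma unram_mono {S T : Set ℕ} (h : S ⊆ T) : unram S ≤ unram T := by
  refine sSup_le_sSup ?_
  rintro F ⟨hG, hF, hq⟩
  exact ⟨hG, hF, fun q hq1 hq2 => h (hq q hq1 hq2)⟩

instance unram_normal (S : Set ℕ) : Normal ℚ (unram S) := by
  rw [unram, sSup_eq_iSup']
  have : ∀ F : GalUnram S, Normal ℚ F.1 := by
    rintro ⟨F, hF, _⟩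
    exact hF.to_normal
  exact IntermediateField.normal_iSup _ (h := this)

lemma normal_fixingSubgroup (L : IntermediateField ℚ Ω) [hL : Normal ℚ L] :
    L.fixingSubgroup.Normal := by
  refine ⟨fun x hx g => ?_⟩
  rw [IntermediateField.mem_fixingSubgroup_iff] at hx ⊢
  intro y hy
  have h1 : L.map (g⁻¹ : Ω ≃ₐ[ℚ] Ω).toAlgHom ≤ L :=
    (IntermediateField.normal_iff_forall_map_le.1 hL) _
  have h2 : (g⁻¹ : Ω ≃ₐ[ℚ] Ω) y ∈ L := h1 ⟨y, hy, rfl⟩
  have h3 := hx _ h2
  rw [AlgEquiv.mul_apply, AlgEquiv.mul_apply, h3]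
  exact AlgEquiv.apply_symm_apply g y

instance (S : Set ℕ) : (unram S).fixingSubgroup.Normal := normal_fixingSubgroup _

lemma exists_unram (L : IntermediateField ℚ Ω) [IsGalois ℚ L] [FiniteDimensional ℚ L]
    (S : Set ℕ) (hS : S.Finite) : ∃ T : Set ℕ, T.Finite ∧ S ⊆ T ∧ L ≤ unram T := by
  have : NumberField L := ⟨⟩
  refine ⟨S ∪ ((discr L).natAbs.primeFactors : Set ℕ), hS.union (Finset.finite_toSet _),
    Set.subset_union_left, ?_⟩
  refine le_sSup ⟨inferInstance, inferInstance, fun q hq hqd => Or.inr ?_⟩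
  have h0 : discr L ≠ 0 := discr_ne_zero L
  simp only [Finset.mem_coe, Nat.mem_primeFactors, ne_eq, Int.natAbs_eq_zero]
  exact ⟨hq, Int.natCast_dvd.1 hqd, h0⟩

/-- Going down. -/
lemma muZero_of_le (p : ℕ) [Fact p.Prime] {E L : IntermediateField ℚ Ω} [FiniteDimensional ℚ L]
    [IsGalois ℚ L] (hEL : E ≤ L) (h : MuZero p L) : MuZero p E := by
  have hUn : L.fixingSubgroup.Normal := normal_fixingSubgroup L
  intro S hS hpS hE
  obtain ⟨T, hT, hST, hLT⟩ := exists_unram L S hS
  have h1 := h T hT (hST hpS) hLT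
  have hUfi : L.fixingSubgroup.index ≠ 0 := by
    rw [← IntermediateField.finrank_eq_fixingSubgroup_index]
    exact Module.finrank_pos.ne'
  have hle : (L ⊔ cyc p).fixingSubgroup ≤ (E ⊔ cyc p).fixingSubgroup :=
    fixingSubgroup_antitone (sup_le_sup_right hEL _)
  have hind : (L ⊔ cyc p).fixingSubgroup.relIndex (E ⊔ cyc p).fixingSubgroup ≠ 0 := by
    have e : (L ⊔ cyc p).fixingSubgroup =
        L.fixingSubgroup ⊓ (E ⊔ cyc p).fixingSubgroup := by
      rw [fixingSubgroup_sup, fixingSubgroup_sup, ← inf_assoc,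
        inf_eq_left.2 (fixingSubgroup_antitone hEL)]
    rw [e, Subgroup.inf_relIndex_right]
    exact fun h0 => hUfi (Nat.eq_zero_of_zero_dvd (h0 ▸ Subgroup.relIndex_dvd_index_of_normal _ _))
  exact (finite_of_le hle hind h1).subset
    (mono_right (fixingSubgroup_antitone (unram_mono hST)))

/-- Going up along a `p`-extension. -/
lemma muZero_of_pext (p : ℕ) [Fact p.Prime] {K L : IntermediateField ℚ Ω}
    [FiniteDimensional ℚ L] [IsGalois ℚ L] (hKL : K ≤ L)
    (hp : ∀ g ∈ K.fixingSubgroup, ∃ k : ℕ, g ^ (p ^ k) ∈ L.fixingSubgroup)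
    (h : MuZero p K) : MuZero p L := by
  have hUn : L.fixingSubgroup.Normal := normal_fixingSubgroup L
  intro S hS hpS hL
  have h1 := h S hS hpS (hKL.trans hL)
  have hUfi : L.fixingSubgroup.index ≠ 0 := by
    rw [← IntermediateField.finrank_eq_fixingSubgroup_index]
    exact Module.finrank_pos.ne'
  have hle : (L ⊔ cyc p).fixingSubgroup ≤ (K ⊔ cyc p).fixingSubgroup :=
    fixingSubgroup_antitone (sup_le_sup_right hKL _)
  have hind : (L ⊔ cyc p).fixingSubgroup.relIndex (K ⊔ cyc p).fixingSubgroup ≠ 0 := by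
    have e : (L ⊔ cyc p).fixingSubgroup =
        L.fixingSubgroup ⊓ (K ⊔ cyc p).fixingSubgroup := by
      rw [fixingSubgroup_sup, fixingSubgroup_sup, ← inf_assoc,
        inf_eq_left.2 (fixingSubgroup_antitone hKL)]
    rw [e, Subgroup.inf_relIndex_right]
    exact fun h0 => hUfi (Nat.eq_zero_of_zero_dvd (h0 ▸ Subgroup.relIndex_dvd_index_of_normal _ _))
  refine finite_of_pgroup (inferInstance : (unram S).fixingSubgroup.Normal) _ _ _ hle rfl hind
    ?_ ?_ ?_ ?_ h1
  · intro g hg x hx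
    rw [fixingSubgroup_sup] at hx hg ⊢
    exact ⟨hUn.conj_mem x hx.1 g, Subgroup.mul_mem _ (Subgroup.mul_mem _ hg.2 hx.2)
      (Subgroup.inv_mem _ hg.2)⟩
  · intro g hg
    rw [fixingSubgroup_sup] at hg
    obtain ⟨k, hk⟩ := hp g hg.1
    refine ⟨k, ?_⟩
    rw [fixingSubgroup_sup]
    exact ⟨hk, Subgroup.pow_mem _ hg.2 _⟩
  · intro x hx hxI
    rw [fixingSubgroup_sup] at hx ⊢
    exact ⟨fixingSubgroup_antitone hL hxI, hx.2⟩
  · refine ⟨L.fixingSubgroup, hUn, L.fixingSubgroup_isOpen, ?_⟩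
    intro x hx hxU
    rw [fixingSubgroup_sup] at hx ⊢
    exact ⟨hxU, hx.2⟩

/-- The Galois closure of a totally real field is totally real. -/
lemma isTotallyReal_normalClosure (M : IntermediateField ℚ Ω) [IsTotallyReal M] :
    IsTotallyReal (normalClosure ℚ M Ω) := by
  have h1 : ∀ f : M →ₐ[ℚ] Ω, IsTotallyReal f.fieldRange.toSubfield := fun f =>
    IsTotallyReal.ofRingEquiv (AlgEquiv.ofInjectiveField f).toRingEquiv
  have h2 : (normalClosure ℚ M Ω).toSubfield = ⨆ f : M →ₐ[ℚ] Ω, f.fieldRange.toSubfield := by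
    have : Nonempty (M →ₐ[ℚ] Ω) := ⟨M.val⟩
    rw [normalClosure_def, iSup_toSubfield]
  have h3 : IsTotallyReal (normalClosure ℚ M Ω).toSubfield := by
    rw [h2]; infer_instance
  exact h3

lemma isTotallyReal_sup' (E F : IntermediateField ℚ Ω) [hE : IsTotallyReal E]
    [hF : IsTotallyReal F] : IsTotallyReal (E ⊔ F : IntermediateField ℚ Ω) := by
  have h1 : IsTotallyReal E.toSubfield := hE
  have h2 : IsTotallyReal F.toSubfield := hF
  have h3 : IsTotallyReal (E ⊔ F).toSubfield := by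
    rw [sup_toSubfield]; infer_instance
  exact h3

lemma isTotallyReal_of_le {K L : IntermediateField ℚ Ω} (h : K ≤ L) [IsTotallyReal L] :
    IsTotallyReal K := by
  have : Algebra.IsAlgebraic ℚ L := IntermediateField.isAlgebraic_tower_bot
  let _ : Algebra K L := (IntermediateField.inclusion h).toRingHom.toAlgebra
  have : IsScalarTower ℚ K L := IsScalarTower.of_algebraMap_eq fun _ => rfl
  have : Algebra.IsAlgebraic K L := Algebra.IsAlgebraic.tower_top (K := ℚ) K
  exact IsTotallyReal.of_algebra K L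

end Pool.Agent.TH965.Mu
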