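import Mathlib

/-!
Homomorphisms to `ℤ/p` of subgroups of a topological group, and Iwasawa's theorem on
`p`-extensions in its group theoretic form.
-/

set_option autoImplicit false

namespace Pool.Agent.TH965.Mu

variable {G : Type*} [Group G] [TopologicalSpace G]

/-- The continuous homomorphisms `H → ℤ/p` that are trivial on `H ∩ I`, written as functions on `G`
with the value `0` outside `H`. -/
def HomSet (p : ℕ) (I H : Subgroup G) : Set (G → ZMod p) :=
  {f | (∀ x ∈ H, ∀ y ∈ H, f (x * y) = f x + f y) ∧ (∀ x, x ∉ H → f x = 0) ∧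
    (∀ x ∈ H, x ∈ I → f x = 0) ∧
    ∃ U : Subgroup G, U.Normal ∧ IsOpen (U : Set G) ∧ ∀ x ∈ H, x ∈ U → f x = 0}

variable {p : ℕ} {I H N : Subgroup G}

lemma hs_one {f : G → ZMod p} (hf : f ∈ HomSet p I H) : f 1 = 0 := by
  have := hf.1 1 H.one_mem 1 H.one_mem
  simpa using this

lemma hs_inv {f : G → ZMod p} (hf : f ∈ HomSet p I H) {x : G} (hx : x ∈ H) :
    f x⁻¹ = - f x := by
  have := hf.1 x hx x⁻¹ (H.inv_mem hx)
  rw [mul_inv_cancel, hs_one hf] at this
  exact (neg_eq_of_add_eq_zero_right this.symm).symm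

lemma hs_pow {f : G → ZMod p} (hf : f ∈ HomSet p I H) {x : G} (hx : x ∈ H) (k : ℕ) :
    f (x ^ k) = k * f x := by
  induction k with
  | zero => simp [hs_one hf]
  | succ k ih => rw [pow_succ, hf.1 _ (H.pow_mem hx k) _ hx, ih]; push_cast; ring

lemma hs_sub {f g : G → ZMod p} (hf : f ∈ HomSet p I H) (hg : g ∈ HomSet p I H) :
    f - g ∈ HomSet p I H := by
  obtain ⟨f1, f2, f3, U, hUn, hU, f4⟩ := hf
  obtain ⟨g1, g2, g3, V, hVn, hV, g4⟩ := hg
  refine ⟨fun x hx y hy => ?_, fun x hx => ?_, fun x hx hI => ?_, U ⊓ V, ?_, ?_, ?_⟩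
  · simp only [Pi.sub_apply, f1 x hx y hy, g1 x hx y hy]; ring
  · simp [f2 x hx, g2 x hx]
  · simp [f3 x hx hI, g3 x hx hI]
  · exact Subgroup.normal_inf_normal U V
  · simpa using hU.inter hV
  · intro x hx hxU
    simp [f4 x hx hxU.1, g4 x hx hxU.2]

open Classical in
/-- Restriction to a subgroup. -/
noncomputable def res (N : Subgroup G) (f : G → ZMod p) : G → ZMod p :=
  fun x => if x ∈ N then f x else 0

lemma res_mem (hNH : N ≤ H) {f : G → ZMod p} (hf : f ∈ HomSet p I H) :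
    res N f ∈ HomSet p I N := by
  obtain ⟨f1, f2, f3, U, hUn, hU, f4⟩ := hf
  refine ⟨fun x hx y hy => ?_, fun x hx => ?_, fun x hx hI => ?_, U, hUn, hU, ?_⟩
  · simp [res, hx, hy, N.mul_mem hx hy, f1 x (hNH hx) y (hNH hy)]
  · simp [res, hx]
  · simp [res, hx, f3 x (hNH hx) hI]
  · intro x hx hxU
    simp [res, hx, f4 x (hNH hx) hxU]

/-- Going down: if `N` has finite index in `H` and has only finitely many homomorphisms, so
does `H`. -/
lemma finite_of_le [NeZero p] (hNH : N ≤ H) (hind : N.relIndex H ≠ 0)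
    (hfin : (HomSet p I N).Finite) : (HomSet p I H).Finite := by
  classical
  -- finite set of representatives
  have hq : Finite (H ⧸ N.subgroupOf H) := by
    have : (N.subgroupOf H).index ≠ 0 := hind
    have : (N.subgroupOf H).FiniteIndex := ⟨this⟩
    exact Subgroup.finite_quotient_of_finiteIndex
  let r : (H ⧸ N.subgroupOf H) → G := fun q => (q.out : G)
  let Φ : (G → ZMod p) → (G → ZMod p) × ((H ⧸ N.subgroupOf H) → ZMod p) :=
    fun f => (res N f, fun q => f (r q))
  refine Set.Finite.of_finite_image (f := Φ) ?_ ?_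
  · refine Set.Finite.subset (hfin.prod (Set.finite_univ
      (α := (H ⧸ N.subgroupOf H) → ZMod p))) ?_
    rintro _ ⟨f, hf, rfl⟩
    exact ⟨res_mem hNH hf, Set.mem_univ _⟩
  · intro f hf g hg hfg
    have h1 : res N f = res N g := congrArg Prod.fst hfg
    have h2 : ∀ q, f (r q) = g (r q) := fun q => congrFun (congrArg Prod.snd hfg) q
    funext x
    by_cases hx : x ∈ H
    · let q : H ⧸ N.subgroupOf H := QuotientGroup.mk ⟨x, hx⟩
      have hmem : (r q)⁻¹ * x ∈ N := by
        have : (QuotientGroup.mk (q.out) : H ⧸ N.subgroupOf H) = QuotientGroup.mk ⟨x, hx⟩ :=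
          Quotient.out_eq' q
        rw [QuotientGroup.eq] at this
        simpa [Subgroup.mem_subgroupOf] using this
      have hrH : r q ∈ H := (q.out).2
      have hx' : x = r q * ((r q)⁻¹ * x) := by group
      rw [hx', hf.1 _ hrH _ (hNH hmem), hg.1 _ hrH _ (hNH hmem), h2 q]
      have := congrFun h1 ((r q)⁻¹ * x)
      simp only [res, hmem, if_true] at this
      rw [this]
    · rw [hf.2.1 x hx, hg.2.1 x hx]

lemma mono_right {I' : Subgroup G} (h : I' ≤ I) : HomSet p I H ⊆ HomSet p I' H := by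
  rintro f ⟨f1, f2, f3, f4⟩
  exact ⟨f1, f2, fun x hx hI => f3 x hx (h hI), f4⟩

/-- A function killed by a power of `D` lies in a finite set if the kernel of `D` is finite. -/
lemma finite_ker_pow {W : Type*} [AddCommGroup W] (V : AddSubgroup W) (D : AddMonoid.End W)
    (hV : ∀ f ∈ V, D f ∈ V) (hfin : {f : W | f ∈ V ∧ D f = 0}.Finite) (k : ℕ) :
    {f : W | f ∈ V ∧ (D ^ k) f = 0}.Finite := by
  induction k with
  | zero =>
    refine Set.Finite.subset (Set.finite_singleton (0 : W)) ?_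
    rintro f ⟨_, hf⟩
    simpa using hf
  | succ k ih =>
    refine Set.Finite.of_finite_fibers D ?_ ?_
    · refine ih.subset ?_
      rintro _ ⟨f, ⟨hf, hk⟩, rfl⟩
      refine ⟨hV f hf, ?_⟩
      rw [pow_succ] at hk
      exact hk
    · rintro _ ⟨f, ⟨hf, hk⟩, rfl⟩
      refine Set.Finite.subset (hfin.image (fun w => f + w)) ?_
      rintro g ⟨⟨hg, _⟩, hgx⟩
      refine ⟨g - f, ⟨V.sub_mem hg hf, ?_⟩, by simp⟩
      have : D g = D f := hgx
      simp [map_sub, this]

omit [TopologicalSpace G] in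
lemma aux (x y A B C T : G) (h : A * B = T * C) :
    x * y * C⁻¹ = (x * A⁻¹) * ((A * (y * B⁻¹) * A⁻¹) * T) := by
  have h1 : C⁻¹ = (A * B)⁻¹ * T := by rw [h]; group
  rw [h1]; group

/-- The step of degree `p` in Iwasawa's theorem: `N` is the kernel in `H` of a homomorphism
`θ : H → ℤ/p` with `θ g = 1`. -/
lemma finite_step [Fact p.Prime] (hI : I.Normal) (hNH : N ≤ H)
    (hIN : ∀ x ∈ H, x ∈ I → x ∈ N)
    (hopen : ∃ U : Subgroup G, U.Normal ∧ IsOpen (U : Set G) ∧ ∀ x ∈ H, x ∈ U → x ∈ N)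
    (θ : G → ZMod p) (hθ : ∀ x ∈ H, ∀ y ∈ H, θ (x * y) = θ x + θ y)
    (hker : ∀ x ∈ H, θ x = 0 ↔ x ∈ N) (g : G) (hg : g ∈ H) (hθg : θ g = 1)
    (hfin : (HomSet p I H).Finite) : (HomSet p I N).Finite := by
  classical
  have hp : p.Prime := Fact.out
  have θ1 : θ 1 = 0 := by simpa using hθ 1 H.one_mem 1 H.one_mem
  have θinv : ∀ x ∈ H, θ x⁻¹ = - θ x := by
    intro x hx
    have := hθ x hx x⁻¹ (H.inv_mem hx)
    rw [mul_inv_cancel, θ1] at this
    exact (neg_eq_of_add_eq_zero_right this.symm).symm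
  have θpow : ∀ k : ℕ, θ (g ^ k) = k := by
    intro k
    induction k with
    | zero => simp [θ1]
    | succ k ih => rw [pow_succ, hθ _ (H.pow_mem hg k) _ hg, ih, hθg]; push_cast; ring
  -- `N` is normalised by `H`
  have hconj : ∀ h ∈ H, ∀ x, (h * x * h⁻¹ ∈ N ↔ x ∈ N) := by
    intro h hh x
    constructor
    · intro hx
      have hxH : x ∈ H := by
        have := H.mul_mem (H.mul_mem (H.inv_mem hh) (hNH hx)) hh
        simpa [mul_assoc] using this
      rw [← hker _ (hNH hx), hθ _ (H.mul_mem hh hxH) _ (H.inv_mem hh), hθ _ hh _ hxH,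
        θinv _ hh] at hx
      rw [← hker _ hxH]
      linear_combination hx
    · intro hx
      have hxH := hNH hx
      rw [← hker _ (H.mul_mem (H.mul_mem hh hxH) (H.inv_mem hh)),
        hθ _ (H.mul_mem hh hxH) _ (H.inv_mem hh), hθ _ hh _ hxH, θinv _ hh]
      rw [← hker _ hxH] at hx
      linear_combination hx
  have hgp : g ^ p ∈ N := by
    rw [← hker _ (H.pow_mem hg p), θpow]; simp
  -- the group of homomorphisms of `N`
  let V : AddSubgroup (G → ZMod p) :=
    { carrier := HomSet p I N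
      zero_mem' := ⟨by simp, by simp, by simp, ⊤, inferInstance, by simp, by simp⟩
      add_mem' := by
        intro a b ha hb
        have h0 : (0 : G → ZMod p) ∈ HomSet p I N :=
          ⟨by simp, by simp, by simp, ⊤, inferInstance, by simp, by simp⟩
        have := hs_sub ha (hs_sub h0 hb)
        simpa using this
      neg_mem' := by
        intro a ha
        have h0 : (0 : G → ZMod p) ∈ HomSet p I N :=
          ⟨by simp, by simp, by simp, ⊤, inferInstance, by simp, by simp⟩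
        have := hs_sub h0 ha
        simpa using this }
  let σ : AddMonoid.End (G → ZMod p) :=
    { toFun := fun f x => f (g * x * g⁻¹)
      map_zero' := rfl
      map_add' := fun _ _ => rfl }
  have hσV : ∀ f ∈ V, σ f ∈ V := by
    rintro f ⟨f1, f2, f3, U, hUn, hU, f4⟩
    refine ⟨fun x hx y hy => ?_, fun x hx => ?_, fun x hx hxI => ?_, U, hUn, hU, ?_⟩
    · change f (g * (x * y) * g⁻¹) = f (g * x * g⁻¹) + f (g * y * g⁻¹)
      rw [← f1 _ ((hconj g hg x).2 hx) _ ((hconj g hg y).2 hy)]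
      congr 1; group
    · exact f2 _ (fun h => hx ((hconj g hg x).1 h))
    · exact f3 _ ((hconj g hg x).2 hx) (hI.conj_mem x hxI g)
    · intro x hx hxU
      exact f4 _ ((hconj g hg x).2 hx) (hUn.conj_mem x hxU g)
  have hσk : ∀ (k : ℕ) (f : G → ZMod p) (x : G), (σ ^ k) f x = f (g ^ k * x * (g ^ k)⁻¹) := by
    intro k
    induction k with
    | zero => intro f x; simp
    | succ k ih =>
      intro f x
      rw [pow_succ]
      change (σ ^ k) (σ f) x = _
      rw [ih]
      change f (g * (g ^ k * x * (g ^ k)⁻¹) * g⁻¹) = _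
      congr 1
      rw [pow_succ' g k]; group
  have hσp : ∀ f ∈ V, (σ ^ p) f = f := by
    intro f hf
    funext x
    rw [hσk]
    have hgp' : g ^ p ∈ H := H.pow_mem hg p
    by_cases hx : x ∈ N
    · rw [hf.1 _ (N.mul_mem hgp hx) _ (N.inv_mem hgp), hf.1 _ hgp _ hx, hs_inv hf hgp]
      ring
    · rw [hf.2.1 x hx, hf.2.1]
      exact fun h => hx ((hconj _ hgp' x).1 h)
  let D : AddMonoid.End (G → ZMod p) := σ - 1
  have hD : ∀ f x, D f x = f (g * x * g⁻¹) - f x := fun _ _ => rfl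
  have hDV : ∀ f ∈ V, D f ∈ V := fun f hf => V.sub_mem (hσV f hf) hf
  -- the invariant homomorphisms
  have hW : {f : G → ZMod p | f ∈ V ∧ D f = 0 ∧ f (g ^ p) = 0}.Finite := by
    refine (hfin.image (res N)).subset ?_
    rintro f ⟨hf, hDf, hfp⟩
    have hf' : f ∈ HomSet p I N := hf
    have hc : ∀ x, f (g * x * g⁻¹) = f x := by
      intro x
      have := congrFun hDf x
      rw [hD] at this
      exact sub_eq_zero.1 this
    have hck : ∀ (k : ℕ) (x : G), f (g ^ k * x * (g ^ k)⁻¹) = f x := by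
      intro k
      induction k with
      | zero => intro x; simp
      | succ k ih =>
        intro x
        rw [← ih x, ← hc (g ^ k * x * (g ^ k)⁻¹)]
        congr 1
        rw [pow_succ' g k]; group
    have hmemN : ∀ x ∈ H, x * (g ^ (θ x).val)⁻¹ ∈ N := by
      intro x hx
      have hgk : g ^ (θ x).val ∈ H := H.pow_mem hg _
      rw [← hker _ (H.mul_mem hx (H.inv_mem hgk)), hθ _ hx _ (H.inv_mem hgk), θinv _ hgk, θpow,
        ZMod.natCast_zmod_val, add_neg_cancel]
    let F : G → ZMod p := fun x => if x ∈ H then f (x * (g ^ (θ x).val)⁻¹) else 0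
    have hFN : ∀ x ∈ N, F x = f x := by
      intro x hx
      have h0 : θ x = 0 := (hker x (hNH hx)).2 hx
      simp [F, hNH hx, h0]
    obtain ⟨U0, hU0n, hU0, hU0N⟩ := hopen
    obtain ⟨U, hUn, hU, hUf⟩ := hf'.2.2.2
    refine ⟨F, ⟨fun x hx y hy => ?_, fun x hx => ?_, fun x hx hxI => ?_, U ⊓ U0, ?_, ?_, ?_⟩, ?_⟩
    · have hxy := H.mul_mem hx hy
      simp only [F, hx, hy, hxy, if_true]
      have hval : (θ (x * y)).val = ((θ x).val + (θ y).val) % p := by
        rw [hθ x hx y hy, ZMod.val_add]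
      set a := (θ x).val with ha
      set b := (θ y).val with hb
      set c := (θ (x * y)).val with hc'
      obtain ⟨t, ht⟩ : ∃ t, a + b = c + p * t :=
        ⟨(a + b) / p, by rw [hval]; exact (Nat.mod_add_div _ _).symm⟩
      have e2 : g ^ a * g ^ b = (g ^ p) ^ t * g ^ c := by
        rw [← pow_add, ht, ← pow_mul, ← pow_add, add_comm]
      have e1 := aux x y _ _ _ _ e2
      have m1 : x * (g ^ a)⁻¹ ∈ N := hmemN x hx
      have m2 : g ^ a * (y * (g ^ b)⁻¹) * (g ^ a)⁻¹ ∈ N :=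
        (hconj _ (H.pow_mem hg a) _).2 (hmemN y hy)
      have m3 : (g ^ p) ^ t ∈ N := N.pow_mem hgp _
      rw [e1, hf'.1 _ m1 _ (N.mul_mem m2 m3), hf'.1 _ m2 _ m3, hs_pow hf' hgp, hfp, hck]
      ring
    · simp [F, hx]
    · rw [hFN x (hIN x hx hxI)]
      exact hf'.2.2.1 x (hIN x hx hxI) hxI
    · exact Subgroup.normal_inf_normal U U0
    · simpa using hU.inter hU0
    · intro x hx hxU
      have hxN := hU0N x hx hxU.2
      rw [hFN x hxN]
      exact hUf x hxN hxU.1
    · funext x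
      by_cases hx : x ∈ N
      · simp [res, hx, hFN x hx]
      · simp [res, hx, hf'.2.1 x hx]
  have hinv : {f : G → ZMod p | f ∈ V ∧ D f = 0}.Finite := by
    refine Set.Finite.of_finite_fibers (fun f => f (g ^ p)) (Set.toFinite _) ?_
    rintro _ ⟨f, ⟨hf, hDf⟩, rfl⟩
    refine Set.Finite.subset (hW.image (fun w => f + w)) ?_
    rintro f' ⟨⟨hf'V, hDf'⟩, hff'⟩
    refine ⟨f' - f, ⟨V.sub_mem hf'V hf, ?_, ?_⟩, by simp⟩
    · rw [map_sub, hDf, hDf', sub_self]
    · have : f' (g ^ p) = f (g ^ p) := hff'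
      simp [this]
  have hall := finite_ker_pow V D hDV hinv p
  refine hall.subset ?_
  intro f hf
  refine ⟨hf, ?_⟩
  have : Nontrivial (AddMonoid.End (G → ZMod p)) := by
    refine ⟨0, 1, fun h => ?_⟩
    have := congrFun (DFunLike.congr_fun h (fun _ => (1 : ZMod p))) 1
    simp at this
  have : CharP (AddMonoid.End (G → ZMod p)) p := by
    rw [CharP.charP_iff_prime_eq_zero hp]
    ext f x
    have : ((p : AddMonoid.End (G → ZMod p)) f) = p • f := by
      simp
    rw [this]
    simp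
  have hpow : D ^ p = σ ^ p - 1 := by
    have := sub_pow_char_of_commute (R := AddMonoid.End (G → ZMod p)) p
      (Commute.one_right σ)
    simpa using this
  rw [hpow]
  change (σ ^ p) f - f = 0
  rw [hσp f hf, sub_self]

/-- Iwasawa's theorem on `p`-extensions, for groups: if `N` is a normal subgroup of finite index
of `H`, the quotient is a `p`-group, and `H` has only finitely many homomorphisms to `ℤ/p`, then
so has `N`. -/
theorem finite_of_pgroup [Fact p.Prime] (hI : I.Normal) (n : ℕ) :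
    ∀ H N : Subgroup G, N ≤ H → N.relIndex H = n → n ≠ 0 →
      (∀ h ∈ H, ∀ x ∈ N, h * x * h⁻¹ ∈ N) →
      (∀ h ∈ H, ∃ k : ℕ, h ^ (p ^ k) ∈ N) →
      (∀ x ∈ H, x ∈ I → x ∈ N) →
      (∃ U : Subgroup G, U.Normal ∧ IsOpen (U : Set G) ∧ ∀ x ∈ H, x ∈ U → x ∈ N) →
      (HomSet p I H).Finite → (HomSet p I N).Finite := by
  have hp : p.Prime := Fact.out
  induction n using Nat.strong_induction_on with
  | _ n ih =>
  intro H N hNH hn hn0 hnor hpg hIN hopen hfin
  by_cases hN1 : N.relIndex H = 1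
  · have : H ≤ N := Subgroup.relIndex_eq_one.1 hN1
    rwa [le_antisymm hNH this]
  -- the quotient
  have hnormal : (N.subgroupOf H).Normal := by
    refine ⟨fun x hx h => ?_⟩
    exact hnor h.1 h.2 x.1 hx
  have hfi : (N.subgroupOf H).FiniteIndex := ⟨by
    have : N.relIndex H ≠ 0 := by rw [hn]; exact hn0
    exact this⟩
  have hfinq : Finite (H ⧸ N.subgroupOf H) := Subgroup.finite_quotient_of_finiteIndex
  have hpq : IsPGroup p (H ⧸ N.subgroupOf H) := by
    intro q
    obtain ⟨h, rfl⟩ := QuotientGroup.mk_surjective q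
    obtain ⟨k, hk⟩ := hpg h.1 h.2
    refine ⟨k, ?_⟩
    rw [← QuotientGroup.mk_pow, QuotientGroup.eq_one_iff]
    exact hk
  obtain ⟨m, hm⟩ := IsPGroup.iff_card.1 hpq
  have hm0 : m ≠ 0 := by
    rintro rfl
    apply hN1
    have : (N.subgroupOf H).index = Nat.card (H ⧸ N.subgroupOf H) := rfl
    change (N.subgroupOf H).index = 1
    rw [this, hm, pow_zero]
  obtain ⟨m', rfl⟩ := Nat.exists_eq_succ_of_ne_zero hm0
  obtain ⟨M, hM⟩ := Sylow.exists_subgroup_card_pow_prime (G := H ⧸ N.subgroupOf H) p (n := m')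
    (by rw [hm]; exact pow_dvd_pow p (Nat.le_succ m'))
  have hMi : M.index = p := by
    have := M.card_mul_index
    rw [hM, hm, pow_succ] at this
    exact Nat.eq_of_mul_eq_mul_left (pow_pos hp.pos m') this
  have hMn : M.Normal := by
    apply Subgroup.normal_of_index_eq_minFac_card
    rw [hMi, hm, hp.pow_minFac (Nat.succ_ne_zero m')]
  have hcard : Nat.card ((H ⧸ N.subgroupOf H) ⧸ M) = Nat.card (Multiplicative (ZMod p)) := by
    change M.index = _
    rw [hMi]; simp
  let e : ((H ⧸ N.subgroupOf H) ⧸ M) ≃* Multiplicative (ZMod p) :=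
    mulEquivOfPrimeCardEq (p := p) (by change M.index = _; exact hMi) (by simp)
  let ψ : H →* Multiplicative (ZMod p) :=
    (e.toMonoidHom.comp (QuotientGroup.mk' M)).comp (QuotientGroup.mk' (N.subgroupOf H))
  have hψsurj : Function.Surjective ψ := by
    intro z
    obtain ⟨q, hq⟩ := QuotientGroup.mk_surjective (e.symm z)
    obtain ⟨h, hh⟩ := QuotientGroup.mk_surjective q
    refine ⟨h, ?_⟩
    change e (QuotientGroup.mk (QuotientGroup.mk h)) = z
    rw [hh, hq]; simp
  have hψN : ∀ h : H, h.1 ∈ N → ψ h = 1 := by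
    intro h hh
    change e (QuotientGroup.mk (QuotientGroup.mk h)) = 1
    have : (QuotientGroup.mk h : H ⧸ N.subgroupOf H) = 1 := by
      rw [QuotientGroup.eq_one_iff]; exact hh
    rw [this]; simp
  classical
  let N1 : Subgroup G := ψ.ker.map H.subtype
  have hN1mem : ∀ x (hx : x ∈ H), x ∈ N1 ↔ ψ ⟨x, hx⟩ = 1 := by
    intro x hx
    constructor
    · rintro ⟨y, hy, rfl⟩
      exact hy
    · intro h
      exact ⟨⟨x, hx⟩, h, rfl⟩
  have hN1H : N1 ≤ H := by
    rintro _ ⟨y, _, rfl⟩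
    exact y.2
  have hNN1 : N ≤ N1 := fun x hx => (hN1mem x (hNH hx)).2 (hψN _ hx)
  let θ : G → ZMod p := fun x => if hx : x ∈ H then Multiplicative.toAdd (ψ ⟨x, hx⟩) else 0
  have hθ : ∀ x ∈ H, ∀ y ∈ H, θ (x * y) = θ x + θ y := by
    intro x hx y hy
    simp only [θ, hx, hy, H.mul_mem hx hy, dif_pos]
    rw [← toAdd_mul, ← map_mul]; rfl
  have hker : ∀ x ∈ H, θ x = 0 ↔ x ∈ N1 := by
    intro x hx
    rw [hN1mem x hx]
    simp only [θ, hx, dif_pos]
    exact toAdd_eq_zero
  obtain ⟨g, hg⟩ := hψsurj (Multiplicative.ofAdd 1)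
  have hθg : θ g.1 = 1 := by
    simp only [θ, g.2, dif_pos]
    change Multiplicative.toAdd (ψ g) = 1
    rw [hg]; simp
  obtain ⟨U, hUn, hU, hUN⟩ := hopen
  have hfin1 : (HomSet p I N1).Finite :=
    finite_step hI hN1H (fun x hx hxI => hNN1 (hIN x hx hxI))
      ⟨U, hUn, hU, fun x hx hxU => hNN1 (hUN x hx hxU)⟩ θ hθ hker g.1 g.2 hθg hfin
  have hmul := Subgroup.relIndex_mul_relIndex N N1 H hNN1 hN1H
  have hne1 : N1.relIndex H ≠ 1 := by
    intro h
    have h2 : H ≤ N1 := Subgroup.relIndex_eq_one.1 h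
    have h3 := (hN1mem g.1 g.2).1 (h2 g.2)
    have h4 : ψ g = 1 := h3
    rw [hg] at h4
    have h5 : (1 : ZMod p) = 0 := congrArg Multiplicative.toAdd h4
    exact one_ne_zero h5
  have hne0 : N1.relIndex H ≠ 0 := by
    intro h; rw [h, mul_zero] at hmul; exact hn0 (hn ▸ hmul.symm)
  have hne0' : N.relIndex N1 ≠ 0 := by
    intro h; rw [h, zero_mul] at hmul; exact hn0 (hn ▸ hmul.symm)
  have hlt : N.relIndex N1 < n := by
    rw [← hn, ← hmul]
    have : 2 ≤ N1.relIndex H := by omega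
    nlinarith [Nat.pos_of_ne_zero hne0']
  exact ih (N.relIndex N1) hlt N1 N hNN1 rfl hne0'
    (fun h hh x hx => hnor h (hN1H hh) x hx) (fun h hh => hpg h (hN1H hh))
    (fun x hx hxI => hIN x (hN1H hx) hxI)
    ⟨U, hUn, hU, fun x hx hxU => hUN x (hN1H hx) hxU⟩ hfin1

end Pool.Agent.TH965.Mu
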