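import Pool.Agent.TH965.Mu.Field

/-!
The fixed field of a Sylow subgroup.
-/

set_option autoImplicit false

open NumberField IntermediateField

namespace Pool.Agent.TH965.Mu

lemma exists_sylow {G : Type*} [Group G] (p : ℕ) [Fact p.Prime] (U H₀ : Subgroup G) [U.Normal]
    (hU : U.index ≠ 0) (hUH : U ≤ H₀) (hp : ¬ p ∣ H₀.index) :
    ∃ P : Subgroup G, U ≤ P ∧ P ≤ H₀ ∧ ¬ p ∣ P.index ∧ (∀ g ∈ P, ∃ k : ℕ, g ^ (p ^ k) ∈ U) ∧
      ∀ N : Subgroup G, U ≤ N → N ≤ P → ∃ k : ℕ, N.relIndex P = p ^ k := by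
  have hprime : p.Prime := Fact.out
  have : U.FiniteIndex := ⟨hU⟩
  have : Finite (G ⧸ U) := Subgroup.finite_quotient_of_finiteIndex
  let π : G →* G ⧸ U := QuotientGroup.mk' U
  have hπ : Function.Surjective π := QuotientGroup.mk'_surjective U
  have hker : π.ker = U := QuotientGroup.ker_mk' U
  let H₁ : Subgroup (G ⧸ U) := H₀.map π
  have hH₁ : H₁.comap π = H₀ := by
    rw [Subgroup.comap_map_eq, hker, sup_eq_left.2 hUH]
  let P₁ : Sylow p H₁ := default
  let P₂ : Subgroup (G ⧸ U) := (P₁ : Subgroup H₁).map H₁.subtype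
  let P : Subgroup G := P₂.comap π
  have hP₂ : P₂ ≤ H₁ := Subgroup.map_subtype_le _
  refine ⟨P, ?_, ?_, ?_, ?_, ?_⟩
  · intro x hx
    have : π x = 1 := by rw [← MonoidHom.mem_ker, hker]; exact hx
    change π x ∈ P₂
    rw [this]; exact P₂.one_mem
  · rw [← hH₁]; exact Subgroup.comap_mono hP₂
  · have h1 : P.index = P₂.index := Subgroup.index_comap_of_surjective _ hπ
    have h2 : P₂.index = (P₁ : Subgroup H₁).index * H₁.index := Subgroup.index_map_subtype _
    have h3 : H₀.index = H₁.index := by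
      rw [← hH₁]; exact Subgroup.index_comap_of_surjective _ hπ
    rw [h1, h2, ← h3, hprime.dvd_mul, not_or]
    exact ⟨P₁.not_dvd_index, hp⟩
  · intro g hg
    obtain ⟨y, hy, hyg⟩ := hg
    obtain ⟨k, hk⟩ := P₁.isPGroup' ⟨y, hy⟩
    refine ⟨k, ?_⟩
    have h1 : y ^ (p ^ k) = 1 := congrArg Subtype.val hk
    rw [← hker, MonoidHom.mem_ker, map_pow, ← hyg, ← map_pow, h1, map_one]
  · intro N hUN hNP
    have h1 : U.relIndex P = Nat.card P₂ := by
      have := Subgroup.relIndex_ker P π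
      rw [hker] at this
      rw [this, Subgroup.map_comap_eq_self_of_surjective hπ]
    have h2 : Nat.card P₂ = Nat.card P₁ :=
      (Nat.card_congr ((P₁ : Subgroup H₁).equivMapOfInjective _
        (Subgroup.subtype_injective H₁)).toEquiv).symm
    obtain ⟨k, hk⟩ := IsPGroup.iff_card.1 P₁.isPGroup'
    have h3 : N.relIndex P ∣ p ^ k := by
      rw [← hk, ← h2, ← h1, ← Subgroup.relIndex_mul_relIndex U N P hUN hNP]
      exact Dvd.intro_left _ rfl
    obtain ⟨j, _, hj⟩ := (Nat.dvd_prime_pow hprime).1 h3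
    exact ⟨j, hj⟩

theorem main (p : ℕ) [Fact p.Prime] (F₀ E : IntermediateField ℚ Ω) [FiniteDimensional ℚ F₀]
    [FiniteDimensional ℚ E] [IsTotallyReal F₀] [IsTotallyReal E]
    (h0 : ¬ p ∣ Module.finrank ℚ F₀) :
    ∃ K : IntermediateField ℚ Ω, FiniteDimensional ℚ K ∧ IsTotallyReal K ∧ F₀ ≤ K ∧
      K ≤ normalClosure ℚ (E ⊔ F₀ : IntermediateField ℚ Ω) Ω ∧
      ¬ p ∣ Module.finrank ℚ K ∧
      (∃ k : ℕ, Module.finrank ℚ (normalClosure ℚ K Ω) = p ^ k * Module.finrank ℚ K) ∧
      (MuZero p K → MuZero p E) := by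
  have hMr : IsTotallyReal (E ⊔ F₀ : IntermediateField ℚ Ω) := isTotallyReal_sup' E F₀
  have hMf : FiniteDimensional ℚ (E ⊔ F₀ : IntermediateField ℚ Ω) :=
    IntermediateField.finiteDimensional_sup E F₀
  have hLr := isTotallyReal_normalClosure (E ⊔ F₀)
  have hML : (E ⊔ F₀ : IntermediateField ℚ Ω) ≤
      normalClosure ℚ (E ⊔ F₀ : IntermediateField ℚ Ω) Ω := le_normalClosure _
  have hLn : Normal ℚ (normalClosure ℚ (E ⊔ F₀ : IntermediateField ℚ Ω) Ω) :=
    normalClosure.normal ℚ _ Ω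
  have hLf : FiniteDimensional ℚ (normalClosure ℚ (E ⊔ F₀ : IntermediateField ℚ Ω) Ω) :=
    normalClosure.is_finiteDimensional ℚ _ Ω
  generalize normalClosure ℚ (E ⊔ F₀ : IntermediateField ℚ Ω) Ω = L at *
  have hLg : IsGalois ℚ L := ⟨⟩
  have hEL : E ≤ L := le_sup_left.trans hML
  have hFL : F₀ ≤ L := le_sup_right.trans hML
  have hUn : L.fixingSubgroup.Normal := normal_fixingSubgroup L
  have hUi : L.fixingSubgroup.index ≠ 0 := by
    rw [← IntermediateField.finrank_eq_fixingSubgroup_index]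
    exact Module.finrank_pos.ne'
  obtain ⟨P, hUP, hPF, hPi, hPp, hPN⟩ := exists_sylow p L.fixingSubgroup F₀.fixingSubgroup hUi
    (fixingSubgroup_antitone hFL) (by rwa [← IntermediateField.finrank_eq_fixingSubgroup_index])
  have hPo : IsOpen (P : Set (Ω ≃ₐ[ℚ] Ω)) := Subgroup.isOpen_mono hUP L.fixingSubgroup_isOpen
  have hPc : IsClosed (P : Set (Ω ≃ₐ[ℚ] Ω)) := Subgroup.isClosed_of_isOpen P hPo
  have hKP : (fixedField P).fixingSubgroup = P :=
    InfiniteGalois.fixingSubgroup_fixedField ⟨P, hPc⟩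
  have hKL : fixedField P ≤ L := by
    rw [← InfiniteGalois.fixedField_fixingSubgroup L]
    exact fixedField_antitone hUP
  have hFK : F₀ ≤ fixedField P := by
    rw [← InfiniteGalois.fixedField_fixingSubgroup F₀]
    exact fixedField_antitone hPF
  have hdeg : Module.finrank ℚ (fixedField P) = P.index := by
    rw [IntermediateField.finrank_eq_fixingSubgroup_index, hKP]
  refine ⟨fixedField P, ?_, isTotallyReal_of_le hKL, hFK, hKL, ?_, ?_, ?_⟩
  · exact FiniteDimensional.of_injective (IntermediateField.inclusion hKL).toLinearMap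
      (IntermediateField.inclusion_injective hKL)
  · rw [hdeg]; exact hPi
  · have hLn' : @Normal ℚ L _ _ L.algebra' := hLn
    have hNL : normalClosure ℚ (fixedField P) Ω ≤ L :=
      normalClosure_le_iff_of_normal.2 hKL
    have hKN : fixedField P ≤ normalClosure ℚ (fixedField P) Ω := le_normalClosure _
    obtain ⟨k, hk⟩ := hPN (normalClosure ℚ (fixedField P) Ω).fixingSubgroup
      (fixingSubgroup_antitone hNL) (by
        have := fixingSubgroup_antitone hKN
        rwa [hKP] at this)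
    refine ⟨k, ?_⟩
    rw [hdeg, IntermediateField.finrank_eq_fixingSubgroup_index, ← hk]
    refine (Subgroup.relIndex_mul_index ?_).symm
    have := fixingSubgroup_antitone hKN
    rwa [hKP] at this
  · intro hK
    have h1 : MuZero p L := muZero_of_pext p hKL (by rw [hKP]; exact hPp) hK
    exact muZero_of_le p hEL h1

end Pool.Agent.TH965.Mu
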