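import Pool.Agent.TH965.Mu.Main

/-!
Cohomology with coefficients in an even representation modulo `p`.
-/

set_option autoImplicit false

open NumberField IntermediateField

namespace Pool.Agent.TH965.Mu

/-- `E` is a totally real number field. -/
def TotReal (E : IntermediateField ℚ Ω) : Prop := FiniteDimensional ℚ E ∧ IsTotallyReal E

/-- The degree over `ℚ`. -/
noncomputable def deg (E : IntermediateField ℚ Ω) : ℕ := Module.finrank ℚ E

/-- The Galois closure over `ℚ`. -/
noncomputable def closure (E : IntermediateField ℚ Ω) : IntermediateField ℚ Ω :=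
  normalClosure ℚ E Ω

/-- `K` is a totally real number field that contains `F₀`, its degree is prime to `p`, and its
Galois closure is an extension of `K` of degree a power of `p`. -/
def Reduced (p : ℕ) (F₀ K : IntermediateField ℚ Ω) : Prop :=
  TotReal K ∧ F₀ ≤ K ∧ ¬ p ∣ deg K ∧ ∃ k : ℕ, deg (closure K) = p ^ k * deg K

/-- The Galois group of `Ω` over `K`. -/
abbrev Gal (K : IntermediateField ℚ Ω) : Type := K.fixingSubgroup

/-- `x` fixes `E`. -/
def Fixes {K : IntermediateField ℚ Ω} (x : Gal K) (E : IntermediateField ℚ Ω) : Prop :=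
  x.1 ∈ E.fixingSubgroup

/-- The continuous crossed homomorphisms `Gal(Ω/K^cyc) → 𝔽_p^d` that are trivial on the elements
fixing `ℚ_S`, as functions on `Gal(Ω/K)` with the value `0` outside `Gal(Ω/K^cyc)`. -/
def Cocycles {p d : ℕ} {K : IntermediateField ℚ Ω} (S : Set ℕ)
    (ρ : Gal K →* Matrix (Fin d) (Fin d) (ZMod p)) : Set (Gal K → Fin d → ZMod p) :=
  {f | (∀ x y, Fixes x (cyc p) → Fixes y (cyc p) → f (x * y) = f x + (ρ x).mulVec (f y)) ∧
    (∀ x, ¬ Fixes x (cyc p) → f x = 0) ∧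
    (∀ x, Fixes x (cyc p) → Fixes x (unram S) → f x = 0) ∧
    ∃ L : IntermediateField ℚ Ω, FiniteDimensional ℚ L ∧ ∀ x, Fixes x L → f x = 0}

/-- For every finite set `S` of primes, containing `p`, such that the representation becomes trivial
over a totally real number field `E ⊇ K` that is unramified outside `S`: the group
`H¹(Gal(ℚ_S/K^cyc), 𝔽_p^d)` is finite. -/
def FiniteH1 {p d : ℕ} {K : IntermediateField ℚ Ω}
    (ρ : Gal K →* Matrix (Fin d) (Fin d) (ZMod p)) : Prop :=
  ∀ (S : Set ℕ) (E : IntermediateField ℚ Ω), S.Finite → p ∈ S → TotReal E → K ≤ E →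
    E ≤ unram S → (∀ x : Gal K, Fixes x E → ρ x = 1) → (Cocycles S ρ).Finite

lemma relIndex_ne_zero (p : ℕ) {K L : IntermediateField ℚ Ω} [FiniteDimensional ℚ L]
    (hKL : K ≤ L) :
    (L ⊔ cyc p).fixingSubgroup.relIndex (K ⊔ cyc p).fixingSubgroup ≠ 0 := by
  have hUfi : L.fixingSubgroup.index ≠ 0 := by
    rw [← IntermediateField.finrank_eq_fixingSubgroup_index]
    exact Module.finrank_pos.ne'
  have e : (L ⊔ cyc p).fixingSubgroup =
      L.fixingSubgroup ⊓ (K ⊔ cyc p).fixingSubgroup := by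
    rw [fixingSubgroup_sup, fixingSubgroup_sup, ← inf_assoc,
      inf_eq_left.2 (fixingSubgroup_antitone hKL)]
  rw [e, Subgroup.inf_relIndex_right]
  intro h0
  have hfi : L.fixingSubgroup.FiniteIndex := ⟨hUfi⟩
  exact (inferInstance : (L.fixingSubgroup.subgroupOf
    (K ⊔ cyc p).fixingSubgroup).FiniteIndex).index_ne_zero h0

/-- Finiteness over `E` gives finiteness over `K` for representations that are trivial over `E`. -/
lemma finiteCocycles {p d : ℕ} [Fact p.Prime] {K E : IntermediateField ℚ Ω}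
    (ρ : Gal K →* Matrix (Fin d) (Fin d) (ZMod p)) (S : Set ℕ) (hE : FiniteDimensional ℚ E)
    (hKE : K ≤ E) (hρ : ∀ x : Gal K, Fixes x E → ρ x = 1)
    (hfin : (HomSet p (unram S).fixingSubgroup (E ⊔ cyc p).fixingSubgroup).Finite) :
    (Cocycles S ρ).Finite := by
  classical
  set H := (K ⊔ cyc p).fixingSubgroup with hH
  set N := (E ⊔ cyc p).fixingSubgroup with hN
  have hNH : N ≤ H := fixingSubgroup_antitone (sup_le_sup_right hKE _)
  have hq : Finite (H ⧸ N.subgroupOf H) := by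
    have h1 : (N.subgroupOf H).index ≠ 0 := relIndex_ne_zero p hKE
    have : (N.subgroupOf H).FiniteIndex := ⟨h1⟩
    exact Subgroup.finite_quotient_of_finiteIndex
  have hHK : ∀ x, x ∈ H → x ∈ K.fixingSubgroup := fun x hx => by
    rw [hH, fixingSubgroup_sup] at hx; exact hx.1
  have hHc : ∀ x, x ∈ H → x ∈ (cyc p).fixingSubgroup := fun x hx => by
    rw [hH, fixingSubgroup_sup] at hx; exact hx.2
  have hNE : ∀ x, x ∈ N → x ∈ E.fixingSubgroup := fun x hx => by
    rw [hN, fixingSubgroup_sup] at hx; exact hx.1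
  let r : (H ⧸ N.subgroupOf H) → Gal K := fun q => ⟨q.out.1, hHK _ q.out.2⟩
  let R : (Gal K → Fin d → ZMod p) → Fin d → ((Ω ≃ₐ[ℚ] Ω) → ZMod p) :=
    fun f i x => if h : x ∈ N then f ⟨x, hHK x (hNH h)⟩ i else 0
  let Φ : (Gal K → Fin d → ZMod p) →
      (Fin d → ((Ω ≃ₐ[ℚ] Ω) → ZMod p)) × ((H ⧸ N.subgroupOf H) → Fin d → ZMod p) :=
    fun f => (R f, fun q => f (r q))
  refine Set.Finite.of_finite_image (f := Φ) ?_ ?_
  · refine Set.Finite.subset ((Set.Finite.pi' (fun _ : Fin d => hfin)).prod (Set.finite_univ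
      (α := (H ⧸ N.subgroupOf H) → Fin d → ZMod p))) ?_
    rintro _ ⟨f, ⟨f1, f2, f3, L, hL, f4⟩, rfl⟩
    refine ⟨fun i => ?_, Set.mem_univ _⟩
    have : NumberField L := ⟨⟩
    have hLf : FiniteDimensional ℚ (normalClosure ℚ L Ω) :=
      normalClosure.is_finiteDimensional ℚ L Ω
    have hLn : Normal ℚ (normalClosure ℚ L Ω) := normalClosure.normal ℚ L Ω
    refine ⟨fun x hx y hy => ?_, fun x hx => ?_, fun x hx hI => ?_,
      (normalClosure ℚ L Ω).fixingSubgroup, normal_fixingSubgroup _,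
      (normalClosure ℚ L Ω).fixingSubgroup_isOpen, ?_⟩
    · have hxy := N.mul_mem hx hy
      simp only [Φ, R, hx, hy, hxy, dif_pos]
      have h1 := f1 ⟨x, hHK x (hNH hx)⟩ ⟨y, hHK y (hNH hy)⟩ (hHc x (hNH hx)) (hHc y (hNH hy))
      rw [hρ ⟨x, hHK x (hNH hx)⟩ (hNE x hx), Matrix.one_mulVec] at h1
      exact congrFun h1 i
    · simp [Φ, R, hx]
    · simp only [Φ, R, hx, dif_pos]
      exact congrFun (f3 ⟨x, hHK x (hNH hx)⟩ (hHc x (hNH hx)) hI) i
    · intro x hx hxU
      simp only [Φ, R, hx, dif_pos]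
      exact congrFun (f4 ⟨x, hHK x (hNH hx)⟩
        (fixingSubgroup_antitone (le_normalClosure L) hxU)) i
  · intro f hf g hg hfg
    have h1 : R f = R g := congrArg Prod.fst hfg
    have h2 : ∀ q, f (r q) = g (r q) := fun q => congrFun (congrArg Prod.snd hfg) q
    funext x
    by_cases hxc : Fixes x (cyc p)
    · have hxH : x.1 ∈ H := by
        rw [hH, fixingSubgroup_sup]; exact ⟨x.2, hxc⟩
      let q : H ⧸ N.subgroupOf H := QuotientGroup.mk ⟨x.1, hxH⟩
      have hmem : (r q)⁻¹.1 * x.1 ∈ N := by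
        have : (QuotientGroup.mk (q.out) : H ⧸ N.subgroupOf H) = QuotientGroup.mk ⟨x.1, hxH⟩ :=
          Quotient.out_eq' q
        rw [QuotientGroup.eq] at this
        simpa [Subgroup.mem_subgroupOf] using this
      have hrc : Fixes (r q) (cyc p) := hHc _ q.out.2
      let n : Gal K := (r q)⁻¹ * x
      have hnN : n.1 ∈ N := hmem
      have hnc : Fixes n (cyc p) := hHc _ (hNH hnN)
      have hx' : x = r q * n := by simp [n]
      have hn : f n = g n := by
        funext i
        have := congrFun (congrFun h1 i) n.1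
        simpa only [R, hnN, dif_pos] using this
      rw [hx', hf.1 _ _ hrc hnc, hg.1 _ _ hrc hnc, h2 q, hn]
    · rw [hf.2.1 x hxc, hg.2.1 x hxc]

/-- The trivial representation. -/
lemma muZero_of_finiteH1 {p : ℕ} [Fact p.Prime] {K : IntermediateField ℚ Ω} (hK : TotReal K)
    (h : FiniteH1 (d := 1) (1 : Gal K →* Matrix (Fin 1) (Fin 1) (ZMod p))) : MuZero p K := by
  classical
  intro S hS hpS hKS
  have h1 := h S K hS hpS hK le_rfl hKS (fun _ _ => rfl)
  let Ψ : ((Ω ≃ₐ[ℚ] Ω) → ZMod p) → (Gal K → Fin 1 → ZMod p) := fun f x _ => f x.1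
  refine Set.Finite.of_finite_image (f := Ψ) (h1.subset ?_) ?_
  · rintro _ ⟨f, ⟨f1, f2, f3, U, hUn, hU, f4⟩, rfl⟩
    have hmem : ∀ x : Gal K, Fixes x (cyc p) → x.1 ∈ (K ⊔ cyc p).fixingSubgroup := by
      intro x hx; rw [fixingSubgroup_sup]; exact ⟨x.2, hx⟩
    have hUc : IsClosed (U : Set (Ω ≃ₐ[ℚ] Ω)) := Subgroup.isClosed_of_isOpen U hU
    have hUf : (fixedField U).fixingSubgroup = U :=
      InfiniteGalois.fixingSubgroup_fixedField ⟨U, hUc⟩
    refine ⟨fun x y hx hy => ?_, fun x hx => ?_, fun x hx hI => ?_, fixedField U, ?_, ?_⟩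
    · funext i
      simpa [Ψ] using f1 x.1 (hmem x hx) y.1 (hmem y hy)
    · funext i
      refine f2 x.1 (fun hx' => hx ?_)
      rw [fixingSubgroup_sup] at hx'
      exact hx'.2
    · funext i
      exact f3 x.1 (hmem x hx) hI
    · rw [← InfiniteGalois.isOpen_iff_finite, hUf]
      exact hU
    · intro x hx
      funext i
      by_cases hxH : x.1 ∈ (K ⊔ cyc p).fixingSubgroup
      · refine f4 x.1 hxH ?_
        have : x.1 ∈ (fixedField U).fixingSubgroup := hx
        rwa [hUf] at this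
      · exact f2 x.1 hxH
  · intro f hf g hg hfg
    funext x
    by_cases hx : x ∈ (K ⊔ cyc p).fixingSubgroup
    · have hxK : x ∈ K.fixingSubgroup := by
        rw [fixingSubgroup_sup] at hx; exact hx.1
      exact congrFun (congrFun hfg ⟨x, hxK⟩) 0
    · rw [hf.2.1 x hx, hg.2.1 x hx]

end Pool.Agent.TH965.Mu
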